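import Pool.Agent.Lib.MP_cd3f56_nt.Core

set_option autoImplicit false

/-!
# The integrals `I_n` are polynomials in `π ^ 2`, `log 2` and odd zeta values
-/

open MeasureTheory Set

namespace Pool.Agent.Results.MP_cd3f56_nt.LogIntegral

open Pool.Agent.Lib.MP_cd3f56_nt

/-- The integrand is absolutely integrable on `(0, 1)` (so that the integral in `result` is the
genuine one). -/
theorem integrand_integrable (n : ℕ) : IntervalIntegrable
    (fun x : ℝ => Real.log (1 - x) ^ (n + 1) * Real.log (1 + x) ^ n / (1 + x)) volume 0 1 := by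
  rw [intervalIntegrable_iff_integrableOn_Ioo_of_le zero_le_one]
  exact f1_integrable n

/-- For every `n ≥ 1` the integral `I_n` is a polynomial with rational coefficients in `π ^ 2`,
`log 2` and the values of the Riemann zeta function at odd integers at least `3`. -/
theorem result : ∀ n : ℕ, 1 ≤ n →
    (∫ x in (0 : ℝ)..1, Real.log (1 - x) ^ (n + 1) * Real.log (1 + x) ^ n / (1 + x)) ∈
      Algebra.adjoin ℚ ({Real.pi ^ 2, Real.log 2} ∪
        {z : ℝ | ∃ k : ℕ, 3 ≤ k ∧ Odd k ∧ (z : ℂ) = riemannZeta (k : ℂ)}) := by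
  intro n _
  set A : Subalgebra ℚ ℝ := Algebra.adjoin ℚ ({Real.pi ^ 2, Real.log 2} ∪
        {z : ℝ | ∃ k : ℕ, 3 ≤ k ∧ Odd k ∧ (z : ℂ) = riemannZeta (k : ℂ)}) with hAdef
  have hpi : Real.pi ^ 2 ∈ A := Algebra.subset_adjoin (Or.inl (by simp))
  have hL : Real.log 2 ∈ A := Algebra.subset_adjoin (Or.inl (by simp))
  have hZ : ∀ k : ℕ, 2 ≤ k → Z k ∈ A := by
    intro k hk
    rcases Nat.even_or_odd k with hev | hodd
    · obtain ⟨m, hm⟩ := hev
      have hkm : k = 2 * m := by omega
      rw [hkm]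
      exact Z_even_mem A hpi m (by omega)
    · apply Algebra.subset_adjoin
      right
      refine ⟨k, ?_, hodd, Z_cast k (by omega)⟩
      rcases hodd with ⟨m, hm⟩
      omega
  exact main_mem A hZ hL n

end Pool.Agent.Results.MP_cd3f56_nt.LogIntegral
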